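import Pool.Agent.S02248

/-!
# A solvable strongly scale-invariant group of exponential growth

The group `Γ` of `Pool/Agent/S02248.lean`: all the maps `h ↦ a * t^k(h) + c` (`a ∈ A`, `k ∈ ℤ`, `c ∈ C`), where `t` is the
automorphism `x ↦ x + x^2`.  It is generated by three elements, its third derived subgroup is trivial, the image of the
endomorphism (conjugation by `ψ(h) = x * t(h) + 1`) has index two, and the iterated images intersect in the identity.
The maps `h ↦ (1 + x) * h` and `h ↦ (1 + x) * h + 1` generate a free semigroup, so the growth is exponential.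
-/

set_option autoImplicit false

namespace Pool.Agent.Results.MP_8f716c_al.ExponentialGrowth

open Polynomial
open Pool.Agent.S02248
open scoped commutatorElement

/-- The elements of word length at most `n` with respect to `S`: products of at most `n` factors, each of which is an
element of `S` or the inverse of one. -/
def ball {Γ : Type} [Group Γ] (S : Set Γ) (n : ℕ) : Set Γ :=
  {g | ∃ l : List Γ, l.length ≤ n ∧ (∀ s ∈ l, s ∈ S ∨ s⁻¹ ∈ S) ∧ l.prod = g}

section balls

variable {Γ : Type} [Group Γ]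

theorem ball_mono (S : Set Γ) {m n : ℕ} (h : m ≤ n) : ball S m ⊆ ball S n := by
  rintro g ⟨l, h1, h2, h3⟩
  exact ⟨l, h1.trans h, h2, h3⟩

theorem mul_mem_ball {S : Set Γ} {m n : ℕ} {g h : Γ} (hg : g ∈ ball S m) (hh : h ∈ ball S n) :
    g * h ∈ ball S (m + n) := by
  obtain ⟨l, h1, h2, rfl⟩ := hg
  obtain ⟨k, k1, k2, rfl⟩ := hh
  refine ⟨l ++ k, by rw [List.length_append]; omega, ?_, List.prod_append⟩
  intro s hs
  rcases List.mem_append.1 hs with h | h
  · exact h2 s h
  · exact k2 s h

theorem one_mem_ball (S : Set Γ) (n : ℕ) : (1 : Γ) ∈ ball S n :=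
  ⟨[], by simp, by simp, by simp⟩

theorem exists_mem_ball {S : Set Γ} (hS : Subgroup.closure S = ⊤) (g : Γ) :
    ∃ n, g ∈ ball S n := by
  have hg : g ∈ Subgroup.closure S := by rw [hS]; trivial
  induction hg using Subgroup.closure_induction with
  | mem s hs => exact ⟨1, [s], by simp, by simp [hs], by simp⟩
  | one => exact ⟨0, one_mem_ball S 0⟩
  | mul a b _ _ iha ihb =>
    obtain ⟨n, hn⟩ := iha
    obtain ⟨k, hk⟩ := ihb
    exact ⟨n + k, mul_mem_ball hn hk⟩
  | inv a _ iha =>
    obtain ⟨n, l, h1, h2, h3⟩ := iha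
    refine ⟨n, (l.map fun y ↦ y⁻¹).reverse, by simpa using h1, ?_, ?_⟩
    · intro s hs
      rw [List.mem_reverse, List.mem_map] at hs
      obtain ⟨y, hy, rfl⟩ := hs
      rcases h2 y hy with h | h
      · right; rwa [inv_inv]
      · left; exact h
    · rw [← List.prod_inv_reverse, h3]

theorem ball_finite {S : Set Γ} (hS : S.Finite) (n : ℕ) : (ball S n).Finite := by
  set R : Set Γ := S ∪ {g | g⁻¹ ∈ S} with hR
  have hRf : R.Finite := by
    refine hS.union ?_
    have : {g : Γ | g⁻¹ ∈ S} = (fun g : Γ ↦ g⁻¹) ⁻¹' S := rfl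
    rw [this]
    exact hS.preimage (inv_injective.injOn)
  have hfin : Finite R := hRf.to_subtype
  have hL : {l : List R | l.length ≤ n}.Finite := List.finite_length_le R n
  refine (hL.image fun l : List R ↦ (l.map Subtype.val).prod).subset ?_
  rintro g ⟨l, h1, h2, rfl⟩
  have h3 : ∀ s ∈ l, s ∈ R := fun s hs ↦ h2 s hs
  refine ⟨l.attach.map fun s ↦ (⟨s.1, h3 s.1 s.2⟩ : R), ?_, ?_⟩
  · simpa using h1
  · simp only [List.map_map]
    congr 1
    exact List.attach_map_subtype_val l

/-- Two elements which generate a free semigroup: exponential growth for every finite generating set. -/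
theorem growth_of_free {S : Set Γ} (hS : S.Finite) (hgen : Subgroup.closure S = ⊤)
    (w : List Bool → Γ) (u v : Γ) (w0 : w [] = 1)
    (wt : ∀ l, w (true :: l) = v * w l) (wf : ∀ l, w (false :: l) = u * w l)
    (hinj : ∀ l l' : List Bool, l.length = l'.length → w l = w l' → l = l') :
    ∃ c : ℝ, 1 < c ∧ ∀ n : ℕ, c ^ n ≤ 2 * ((ball S n).ncard : ℝ) := by
  obtain ⟨a, ha⟩ := exists_mem_ball hgen u
  obtain ⟨b, hb⟩ := exists_mem_ball hgen v
  set L : ℕ := a + b + 1 with hL
  have hu : u ∈ ball S L := ball_mono S (by omega) ha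
  have hv : v ∈ ball S L := ball_mono S (by omega) hb
  have hw : ∀ l : List Bool, w l ∈ ball S (L * l.length) := by
    intro l
    induction l with
    | nil => rw [w0]; exact one_mem_ball S _
    | cons y l ih =>
      rw [List.length_cons, Nat.mul_succ, Nat.add_comm]
      cases y with
      | true => rw [wt]; exact mul_mem_ball hv ih
      | false => rw [wf]; exact mul_mem_ball hu ih
  have hcard : ∀ n : ℕ, 2 ^ n ≤ (ball S (L * n)).ncard := by
    intro n
    have h1 : (Set.range fun f : List.Vector Bool n ↦ w f.1) ⊆ ball S (L * n) := by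
      rintro _ ⟨f, rfl⟩
      have := hw f.1
      rwa [f.2] at this
    have h2 : Function.Injective fun f : List.Vector Bool n ↦ w f.1 := by
      intro f g hfg
      exact Subtype.ext (hinj _ _ (f.2.trans g.2.symm) hfg)
    have h3 := Set.ncard_le_ncard h1 (ball_finite hS _)
    rw [← Set.image_univ, Set.ncard_image_of_injective _ h2, Set.ncard_univ,
      Nat.card_eq_fintype_card, card_vector, Fintype.card_bool] at h3
    exact h3
  have hLpos : (0 : ℝ) < L := by rw [hL]; positivity
  refine ⟨(2 : ℝ) ^ ((1 : ℝ) / L), Real.one_lt_rpow (by norm_num) (by positivity), ?_⟩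
  intro n
  have h4 : ((2 : ℝ) ^ ((1 : ℝ) / L)) ^ n = (2 : ℝ) ^ ((n : ℝ) / L) := by
    rw [← Real.rpow_natCast, ← Real.rpow_mul (by norm_num)]
    congr 1
    ring
  rw [h4]
  set q : ℕ := n / L with hq
  have h5 : (n : ℝ) / L ≤ ((q + 1 : ℕ) : ℝ) := by
    rw [div_le_iff₀ hLpos]
    have h6 : n < L * (q + 1) := by
      rw [hq]
      exact Nat.lt_mul_div_succ n (by omega)
    have h7 : (n : ℝ) ≤ ((L * (q + 1) : ℕ) : ℝ) := by exact_mod_cast h6.le
    rw [mul_comm]
    rw [Nat.cast_mul] at h7
    exact h7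
  have h8 : L * q ≤ n := Nat.mul_div_le n L
  have h9 : (2 ^ q : ℕ) ≤ (ball S n).ncard :=
    (hcard q).trans (Set.ncard_le_ncard (ball_mono S h8) (ball_finite hS _))
  calc (2 : ℝ) ^ ((n : ℝ) / L) ≤ (2 : ℝ) ^ (((q + 1 : ℕ) : ℝ)) :=
        Real.rpow_le_rpow_of_exponent_le (by norm_num) h5
    _ = 2 * ((2 ^ q : ℕ) : ℝ) := by
        rw [Real.rpow_natCast, pow_succ']
        push_cast
        rfl
    _ ≤ 2 * ((ball S n).ncard : ℝ) := by
        have : ((2 ^ q : ℕ) : ℝ) ≤ ((ball S n).ncard : ℝ) := by exact_mod_cast h9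
        linarith

end balls

section model

variable (m : Model)

/-- An element of `Γ` is in the image of the endomorphism if and only if its value at `0` is in `x C`. -/
theorem mem_range_iff (g : Gam m) :
    g ∈ (phi m).range ↔ ∃ d ∈ CC m, (g : Equiv.Perm m.M) 0 = m.x * d := by
  constructor
  · rintro ⟨f, rfl⟩
    obtain ⟨a, ha, k, c, hc, hf⟩ := f.2
    obtain ⟨y, hy⟩ := (psi m).surjective 0
    set r : m.Mˣ := mapU (m.t ^ k) m.x * (m.x)⁻¹ with hr
    have hrA : r ∈ A m := x_ratio m k
    set a' : m.Mˣ := mapU m.t a * r⁻¹ with ha'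
    have hA : a' ∈ A m := by
      have h1 := A_map m 1 ha
      rw [zpow_one] at h1
      exact (A m).mul_mem h1 ((A m).inv_mem hrA)
    obtain ⟨d, hd, hda⟩ := A_cases m hA
    refine ⟨m.t c - d, (CC m).sub_mem (t_mem_CC' m hc) hd, ?_⟩
    have e1 : ((phi m f : Gam m) : Equiv.Perm m.M) 0 = psi m ((f : Equiv.Perm m.M) y) := by
      rw [← hy, phi_coe, Equiv.Perm.mul_apply, Equiv.Perm.mul_apply, perm_inv_apply]
    rw [psi_apply] at hy
    have e2 : (m.t ^ k) (m.t y) = m.t ((m.t ^ k) y) := by
      rw [← RingAut.mul_apply, ← RingAut.mul_apply, ← zpow_add_one, ← zpow_one_add, add_comm]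
    have e3 : (a' : m.M) * (m.t ^ k) (m.x : m.M) = m.x * m.t (a : m.M) := by
      have : a' * mapU (m.t ^ k) m.x = m.x * mapU m.t a := by
        rw [ha', hr, mul_inv, inv_inv]
        calc mapU m.t a * ((mapU (m.t ^ k) m.x)⁻¹ * m.x) * mapU (m.t ^ k) m.x
            = mapU m.t a * m.x * ((mapU (m.t ^ k) m.x)⁻¹ * mapU (m.t ^ k) m.x) := by
              ac_rfl
          _ = _ := by rw [inv_mul_cancel, mul_one, mul_comm]
      have := congrArg Units.val this
      simpa using this
    have e4 : (m.t ^ k) (m.x : m.M) * (m.t ^ k) (m.t y) + 1 = 0 := by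
      have := congrArg (m.t ^ k) hy
      simpa only [map_add, map_mul, map_one, map_zero] using this
    rw [e1, hf, psi_apply]
    simp only [map_add, map_mul]
    rw [← e2]
    linear_combination (-((m.t ^ k) (m.t y))) * e3 + (a' : m.M) * e4 - hda
  · rintro ⟨d, hd, hg⟩
    obtain ⟨a, ha, k, c, hc, hf⟩ := g.2
    have hc' : c = m.x * d := by
      have := hf 0
      rw [hg, map_zero, mul_zero, zero_add] at this
      exact this.symm
    have h1 := mem_conj m ha hd (f := (g : Equiv.Perm m.M)) (k := k)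
      (by intro y; rw [hf, hc'])
    refine ⟨⟨_, h1⟩, ?_⟩
    apply Subtype.ext
    rw [phi_coe]
    simp only
    group

theorem one_not_mem : ¬ ∃ d ∈ CC m, (1 : m.M) = m.x * d := by
  rintro ⟨d, hd, h⟩
  have h9 : X ^ 1 ∣ (1 : (ZMod 2)[X]) := by
    apply dvd_of_CC m (c := d) hd
    rw [map_one, pow_one]
    exact h
  rw [pow_one] at h9
  exact (Polynomial.not_isUnit_X) (isUnit_of_dvd_one h9)

theorem range_index : (phi m).range.index = 2 := by
  rw [Subgroup.index_eq_two_iff]
  refine ⟨⟨tau m 1, tau_mem m (one_mem_CC m)⟩, fun b ↦ ?_⟩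
  rw [mem_range_iff, mem_range_iff]
  obtain ⟨a, ha, k, c, hc, hf⟩ := b.2
  obtain ⟨e, he, hae⟩ := A_cases m ha
  have h0 : (b : Equiv.Perm m.M) 0 = c := by rw [hf, map_zero, mul_zero, zero_add]
  have h1 : ((b * ⟨tau m 1, tau_mem m (one_mem_CC m)⟩ : Gam m) : Equiv.Perm m.M) 0 =
      1 + m.x * e + c := by
    rw [Subgroup.coe_mul, Equiv.Perm.mul_apply]
    simp only [tau_apply, zero_add]
    rw [hf, map_one, mul_one, hae]
  rw [h0, h1]
  obtain ⟨d, hd, h | h⟩ := CC_cases m hc
  · right
    refine ⟨⟨d, hd, h⟩, ?_⟩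
    rintro ⟨f, hf', h2⟩
    exact one_not_mem m ⟨f - e - d, (CC m).sub_mem ((CC m).sub_mem hf' he) hd, by
      linear_combination h2 - h⟩
  · left
    refine ⟨⟨e + d, (CC m).add_mem he hd, by linear_combination h + two_eq_zero m⟩, ?_⟩
    rintro ⟨f, hf', h2⟩
    exact one_not_mem m ⟨f - d, (CC m).sub_mem hf' hd, by linear_combination h2 - h⟩

theorem iInter_range : (⋂ k ∈ Set.Ici 1, Set.range ((phi m)^[k])) = {1} := by
  ext g
  simp only [Set.mem_iInter, Set.mem_Ici, Set.mem_singleton_iff]
  constructor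
  · intro h
    apply stab_trivial m
    intro n
    cases n with
    | zero => exact ⟨g, rfl⟩
    | succ n => exact h (n + 1) (by omega)
  · rintro rfl k _
    exact ⟨1, iterate_map_one (phi m) k⟩

/-- the maps without `t` -/
def G1 : Subgroup (Gam m) where
  carrier := {f | ∃ a : m.Mˣ, ∃ c : m.M, ∀ h, (f : Equiv.Perm m.M) h = a * h + c}
  one_mem' := ⟨1, 0, by simp⟩
  mul_mem' := by
    rintro f g ⟨a, c, hf⟩ ⟨b, d, hg⟩
    refine ⟨a * b, a * d + c, fun h ↦ ?_⟩
    rw [Subgroup.coe_mul, Equiv.Perm.mul_apply, hg, hf, Units.val_mul]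
    ring
  inv_mem' := by
    rintro f ⟨a, c, hf⟩
    refine ⟨a⁻¹, -((a⁻¹ : m.Mˣ) * c), fun h ↦ ?_⟩
    rw [InvMemClass.coe_inv, Equiv.Perm.inv_eq_iff_eq, hf, mul_add, mul_neg, ← mul_assoc,
      ← mul_assoc, Units.mul_inv, one_mul, one_mul]
    ring

/-- the translations -/
def G2 : Subgroup (Gam m) where
  carrier := {f | ∃ c : m.M, ∀ h, (f : Equiv.Perm m.M) h = h + c}
  one_mem' := ⟨0, by simp⟩
  mul_mem' := by
    rintro f g ⟨c, hf⟩ ⟨d, hg⟩
    refine ⟨d + c, fun h ↦ ?_⟩
    rw [Subgroup.coe_mul, Equiv.Perm.mul_apply, hg, hf]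
    ring
  inv_mem' := by
    rintro f ⟨c, hf⟩
    refine ⟨-c, fun h ↦ ?_⟩
    rw [InvMemClass.coe_inv, Equiv.Perm.inv_eq_iff_eq, hf]
    ring

theorem derived : derivedSeries (Gam m) 3 = ⊥ := by
  have key : ∀ (f g y : Gam m), ⁅f, g⁆ * (g * f) = f * g := by
    intro f g _
    rw [commutatorElement_def]; group
  have h1 : derivedSeries (Gam m) 1 ≤ G1 m := by
    rw [derivedSeries_succ, Subgroup.commutator_le]
    intro f _ g _
    obtain ⟨a, ha, k, c, hc, hf⟩ := f.2
    obtain ⟨b, hb, l, d, hd, hg⟩ := g.2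
    -- the commutator maps g f z to f g z
    refine ⟨a * mapU (m.t ^ k) b * (b * mapU (m.t ^ l) a)⁻¹,
      a * (m.t ^ k) d + c - ((a * mapU (m.t ^ k) b * (b * mapU (m.t ^ l) a)⁻¹ : m.Mˣ) : m.M) *
        (b * (m.t ^ l) c + d), fun h ↦ ?_⟩
    obtain ⟨z, rfl⟩ := (((g * f : Gam m)) : Equiv.Perm m.M).surjective h
    have e1 : ((⁅f, g⁆ : Gam m) : Equiv.Perm m.M) (((g * f : Gam m) : Equiv.Perm m.M) z) =
        ((f * g : Gam m) : Equiv.Perm m.M) z := by
      rw [← Equiv.Perm.mul_apply, ← Subgroup.coe_mul, key f g 1]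
    rw [e1]
    simp only [Subgroup.coe_mul, Equiv.Perm.mul_apply, hf, hg, map_add, map_mul]
    have e2 : (m.t ^ l) ((m.t ^ k) z) = (m.t ^ k) ((m.t ^ l) z) := by
      rw [← RingAut.mul_apply, ← RingAut.mul_apply, ← zpow_add, ← zpow_add, add_comm]
    rw [e2]
    have e3 : ((a * mapU (m.t ^ k) b * (b * mapU (m.t ^ l) a)⁻¹ : m.Mˣ) : m.M) *
        ((b : m.M) * (m.t ^ l) (a : m.M)) = a * (m.t ^ k) (b : m.M) := by
      have : a * mapU (m.t ^ k) b * (b * mapU (m.t ^ l) a)⁻¹ * (b * mapU (m.t ^ l) a) =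
          a * mapU (m.t ^ k) b := by rw [inv_mul_cancel_right]
      have := congrArg Units.val this
      simpa using this
    linear_combination (-((m.t ^ k) ((m.t ^ l) z))) * e3
  have h2 : derivedSeries (Gam m) 2 ≤ G2 m := by
    rw [derivedSeries_succ, Subgroup.commutator_le]
    intro f hf g hg
    obtain ⟨a, c, hf⟩ := h1 hf
    obtain ⟨b, d, hg⟩ := h1 hg
    refine ⟨a * d + c - (b * c + d), fun h ↦ ?_⟩
    obtain ⟨z, rfl⟩ := (((g * f : Gam m)) : Equiv.Perm m.M).surjective h
    have e1 : ((⁅f, g⁆ : Gam m) : Equiv.Perm m.M) (((g * f : Gam m) : Equiv.Perm m.M) z) =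
        ((f * g : Gam m) : Equiv.Perm m.M) z := by
      rw [← Equiv.Perm.mul_apply, ← Subgroup.coe_mul, key f g 1]
    rw [e1]
    simp only [Subgroup.coe_mul, Equiv.Perm.mul_apply, hf, hg]
    ring
  rw [derivedSeries_succ, Subgroup.commutator_eq_bot_iff_le_centralizer]
  intro f hf
  rw [Subgroup.mem_centralizer_iff]
  intro g hg
  obtain ⟨c, hf⟩ := h2 hf
  obtain ⟨d, hg⟩ := h2 hg
  apply Subtype.ext
  ext h
  rw [Subgroup.coe_mul, Subgroup.coe_mul, Equiv.Perm.mul_apply, Equiv.Perm.mul_apply, hf, hg, hf, hg]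
  ring

/-- the words in `h ↦ (1 + x) h` and `h ↦ (1 + x) h + 1` -/
noncomputable def word : List Bool → Gam m
  | [] => 1
  | true :: l => (⟨tau m 1, tau_mem m (one_mem_CC m)⟩ * mU m) * word l
  | false :: l => mU m * word l

/-- their values at `0`, as polynomials -/
noncomputable def wpol : List Bool → (ZMod 2)[X]
  | [] => 0
  | true :: l => (1 + X) * wpol l + 1
  | false :: l => (1 + X) * wpol l

theorem word_zero (l : List Bool) : ((word m l : Gam m) : Equiv.Perm m.M) 0 = ev m (wpol l) := by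
  induction l with
  | nil => simp [word, wpol]
  | cons b l ih =>
    have h1 : ∀ y : m.M, ((mU m : Gam m) : Equiv.Perm m.M) y = (1 + m.x) * y := by
      intro y
      simp only [mU, mu_apply, uu_coe]
    cases b with
    | true =>
      simp only [word, wpol, Subgroup.coe_mul, Equiv.Perm.mul_apply, ih, h1, tau_apply]
      simp only [map_add, map_mul, map_one, ev_X]
    | false =>
      simp only [word, wpol, Subgroup.coe_mul, Equiv.Perm.mul_apply, ih, h1]
      simp only [map_add, map_mul, map_one, ev_X]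

theorem one_add_X_ne : (1 + X : (ZMod 2)[X]) ≠ 0 := by
  intro h
  have h1 : (1 + X : (ZMod 2)[X]).natDegree = 1 := by compute_degree!
  rw [h, natDegree_zero] at h1
  exact absurd h1 (by norm_num)

theorem wpol_inj (l : List Bool) : ∀ l' : List Bool, l.length = l'.length → wpol l = wpol l' →
    l = l' := by
  have h2 : (1 : ZMod 2) + 1 = 0 := rfl
  have ev1 : ∀ (b : Bool) (l : List Bool), (wpol (b :: l)).eval 1 = if b then 1 else 0 := by
    intro b l
    cases b <;> simp [wpol, h2]
  induction l with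
  | nil =>
    intro l' h _
    exact (List.length_eq_zero_iff.1 h.symm).symm
  | cons b l ih =>
    intro l' h hp
    cases l' with
    | nil => simp at h
    | cons b' l' =>
      have hb : b = b' := by
        have := congrArg (Polynomial.eval 1) hp
        rw [ev1, ev1] at this
        revert this
        cases b <;> cases b' <;> simp
      subst hb
      have hl : l.length = l'.length := by simpa using h
      have hw : wpol l = wpol l' := by
        cases b with
        | true =>
          simp only [wpol] at hp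
          exact mul_left_cancel₀ one_add_X_ne (add_right_cancel hp)
        | false =>
          simp only [wpol] at hp
          exact mul_left_cancel₀ one_add_X_ne hp
      rw [ih l' hl hw]

theorem growth (S : Set (Gam m)) (hS : S.Finite) (hgen : Subgroup.closure S = ⊤) :
    ∃ c : ℝ, 1 < c ∧ ∀ n : ℕ, c ^ n ≤ 2 * ((ball S n).ncard : ℝ) := by
  refine growth_of_free hS hgen (word m) (mU m)
    (⟨tau m 1, tau_mem m (one_mem_CC m)⟩ * mU m) rfl (fun _ ↦ rfl) (fun _ ↦ rfl) ?_
  intro l l' h hw
  apply wpol_inj l l' h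
  apply ev_inj m
  rw [← word_zero, ← word_zero, hw]

theorem three_gen : ∃ a b c : Gam m, Subgroup.closure {a, b, c} = ⊤ := by
  refine ⟨⟨tau m 1, tau_mem m (one_mem_CC m)⟩, ⟨mu m (uu m), mu_mem m (uu_mem' m)⟩,
    ⟨tt m 1, tt_mem m 1⟩, ?_⟩
  apply Subgroup.map_injective (Gam m).subtype_injective
  rw [MonoidHom.map_closure, ← MonoidHom.range_eq_map, Subgroup.range_subtype]
  refine Eq.trans ?_ (Gam_eq_closure m).symm
  congr 1
  rw [Set.image_insert_eq, Set.image_pair]
  rfl

end model

/-- **A strongly scale-invariant group that is not virtually nilpotent and has exponential growth.**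
There is a group `Γ`, generated by three elements, with an injective endomorphism `φ` such that `φ(Γ)` has index two in
`Γ` and the intersection of all the `φ^k(Γ)`, `k ≥ 1`, is trivial; the third derived subgroup of `Γ` is trivial, for every
finite generating set `S` the number of the elements of word length at most `n` is at least `c ^ n / 2` for some `c > 1`,
and `Γ` has no nilpotent subgroup of finite index. -/
theorem result : ∃ (Γ : Type) (_ : Group Γ),
    (∃ a b c : Γ, Subgroup.closure {a, b, c} = ⊤) ∧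
    (∃ φ : Γ →* Γ, Function.Injective φ ∧ φ.range.index = 2 ∧
      (⋂ k ∈ Set.Ici 1, Set.range (φ^[k])) = {1}) ∧
    derivedSeries Γ 3 = ⊥ ∧
    (∀ S : Set Γ, S.Finite → Subgroup.closure S = ⊤ →
      ∃ c : ℝ, 1 < c ∧ ∀ n : ℕ, c ^ n ≤ 2 * ((ball S n).ncard : ℝ)) ∧
    ¬ ∃ H : Subgroup Γ, H.FiniteIndex ∧ Group.IsNilpotent H :=
  ⟨Gam model, inferInstance, three_gen model,
    ⟨phi model, phi_injective model, range_index model, iInter_range model⟩, derived model,
    growth model, fun ⟨H, hf, hN⟩ ↦ not_nilpotent model H hf hN⟩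

end Pool.Agent.Results.MP_8f716c_al.ExponentialGrowth
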